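import Mathlib

set_option autoImplicit false

namespace Pool.Agent.Results.MP_393150_al.Cancellative

/-- o-conjugacy, with conjugators in `S` itself. -/
def OConj {S : Type*} [Semigroup S] (a b : S) : Prop :=
  ∃ g h : S, a * g = g * b ∧ b * h = h * a

variable {S : Type*} [Semigroup S]

theorem orefl (a : S) : OConj a a := ⟨a, a, rfl, rfl⟩

theorem osymm {a b : S} (h : OConj a b) : OConj b a :=
  let ⟨g, k, h1, h2⟩ := h; ⟨k, g, h2, h1⟩

theorem otrans {a b c : S} (h : OConj a b) (h' : OConj b c) : OConj a c := by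
  obtain ⟨g, k, h1, h2⟩ := h
  obtain ⟨g', k', h3, h4⟩ := h'
  refine ⟨g * g', k' * k, ?_, ?_⟩
  · rw [← mul_assoc, h1, mul_assoc, h3, mul_assoc]
  · rw [← mul_assoc, h4, mul_assoc, h2, mul_assoc]

theorem ocomm (a b : S) : OConj (a * b) (b * a) := ⟨a, b, mul_assoc _ _ _, mul_assoc _ _ _⟩

/-- `pw a n = a ^ (n + 1)` -/
def pw (a : S) : ℕ → S
  | 0 => a
  | n + 1 => a * pw a n

theorem pw_coe (a : S) (n : ℕ) : ((pw a n : S) : WithOne S) = (a : WithOne S) ^ (n + 1) := by
  induction n with
  | zero => simp [pw]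
  | succ n ih => rw [pw, WithOne.coe_mul, ih, ← pow_succ']

theorem exists_idem [Finite S] (a : S) : ∃ n, pw a (n + 1) * pw a (n + 1) = pw a (n + 1) := by
  obtain ⟨i, j, hij, h⟩ := Finite.exists_ne_map_eq_of_infinite (pw a)
  wlog hlt : i < j generalizing i j
  · exact this j i hij.symm h.symm (by omega)
  obtain ⟨d, rfl⟩ : ∃ d, j = i + (d + 1) := ⟨j - i - 1, by omega⟩
  have h1 : (a : WithOne S) ^ (i + 1) = (a : WithOne S) ^ (i + 1 + (d + 1)) := by
    rw [← pw_coe, h, pw_coe]; congr 1; omega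
  have h2 : ∀ k, (a : WithOne S) ^ (i + 1 + k * (d + 1)) = (a : WithOne S) ^ (i + 1) := by
    intro k
    induction k with
    | zero => simp
    | succ k ih =>
      rw [show i + 1 + (k + 1) * (d + 1) = i + 1 + k * (d + 1) + (d + 1) by ring, pow_add, ih,
        ← pow_add, ← h1]
  refine ⟨(i + 2) * (d + 1) - 2, ?_⟩
  have e : (i + 2) * (d + 1) - 2 + 1 + 1 = (i + 2) * (d + 1) := by
    have : 2 ≤ (i + 2) * (d + 1) := by nlinarith
    omega
  apply WithOne.coe_injective
  rw [WithOne.coe_mul, pw_coe, e, ← pow_add]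
  obtain ⟨r, hr⟩ : ∃ r, (i + 2) * (d + 1) = i + 1 + r := ⟨(i + 2) * (d + 1) - (i + 1), by
    have : i + 1 ≤ (i + 2) * (d + 1) := by nlinarith
    omega⟩
  calc (a : WithOne S) ^ ((i + 2) * (d + 1) + (i + 2) * (d + 1))
      = a ^ (i + 1 + (i + 2) * (d + 1)) * a ^ r := by rw [← pow_add]; congr 1; omega
    _ = a ^ ((i + 2) * (d + 1)) := by rw [h2, ← pow_add, hr]

theorem pw_comm (a : S) (n : ℕ) : a * pw a n = pw a n * a := by
  apply WithOne.coe_injective
  rw [WithOne.coe_mul, WithOne.coe_mul, pw_coe, ← pow_succ, ← pow_succ']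

theorem conj_mul_idem (a e : S) (he : e * e = e) (hc : a * e = e * a) : OConj a (a * e) :=
  ⟨e, e, by rw [← mul_assoc, ← hc, mul_assoc, he], by rw [mul_assoc, he, hc]⟩

theorem idem_conj [Finite S]
    (hcong : ∀ a b c d : S, OConj a b → OConj c d → OConj (a * c) (b * d))
    (e f : S) (he : e * e = e) (hf : f * f = f) : OConj e (e * f) := by
  obtain ⟨n, hn⟩ := exists_idem (e * f * e)
  have h1 : ∀ k, OConj (pw (e * f * e) k) (e * f) := by
    have h0 : OConj (e * f * e) (e * f) := by
      have := ocomm (e * f) e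
      rwa [← mul_assoc e e f, he] at this
    intro k
    induction k with
    | zero => exact h0
    | succ k ih =>
      refine otrans (hcong _ _ _ _ h0 ih) ?_
      have := hcong _ _ _ _ h0 (orefl f)
      rwa [mul_assoc e f f, hf, mul_assoc (e * f) e f] at this
  have h2 : e * pw (e * f * e) (n + 1) = pw (e * f * e) (n + 1) := by
    rw [pw, ← mul_assoc, ← mul_assoc, ← mul_assoc, he]
  have h3 : pw (e * f * e) (n + 1) * e = pw (e * f * e) (n + 1) := by
    rw [pw, pw_comm, mul_assoc, mul_assoc (e * f), he]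
  have h4 := conj_mul_idem e _ hn (h2.trans h3.symm)
  rw [h2] at h4
  exact otrans h4 (h1 _)

/-- If o-conjugacy is a congruence on a finite semigroup, the quotient is cancellative. -/
theorem result (S : Type*) [Semigroup S] [Finite S]
    (hcong : ∀ a b c d : S, OConj a b → OConj c d → OConj (a * c) (b * d)) :
    (∀ x y z : S, OConj (x * y) (x * z) → OConj y z) ∧
      (∀ x y z : S, OConj (y * x) (z * x) → OConj y z) := by
  have key : ∀ x y z : S, OConj (y * x) (z * x) → OConj y z := by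
    intro x y z h
    obtain ⟨n, hn⟩ := exists_idem x
    have h1 : ∀ w : S, OConj w (w * pw x (n + 1)) := by
      intro w
      obtain ⟨m, hm⟩ := exists_idem w
      refine otrans (conj_mul_idem w _ hm (pw_comm _ _)) (hcong _ _ _ _ (orefl w) ?_)
      exact otrans (idem_conj hcong _ _ hm hn)
        (otrans (ocomm _ _) (osymm (idem_conj hcong _ _ hn hm)))
    refine otrans (h1 y) (otrans ?_ (osymm (h1 z)))
    have := hcong _ _ _ _ h (orefl (pw x n))
    rwa [mul_assoc, mul_assoc] at this
  exact ⟨fun x y z h => key x y z (otrans (ocomm _ _) (otrans h (ocomm _ _))), key⟩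

end Pool.Agent.Results.MP_393150_al.Cancellative
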